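import Pool.Agent.U642.QS.Box
import Pool.Agent.N542.PT.Loc
import Pool.Agent.Y951.WP.Main

set_option autoImplicit false

/-! # Balanced families from exponential sums -/

namespace Pool.Agent.U642.EW

open Finset MvPolynomial
open Pool.Agent.U642.QS (orth' psi_sum')
open Pool.Agent.N542.PT (Balanced)

section

variable {p : ℕ} [Fact p.Prime]

/-- the number of the points of a fibre -/
lemma cnt {V : Type} [Fintype V] {m : ℕ} (G : V → Fin m → ZMod p) (a : Fin m → ZMod p)
    (B : ℝ) (hB0 : 0 ≤ B) (hB : ∀ t : Fin m → ZMod p, t ≠ 0 →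
      ‖∑ x : V, (ZMod.stdAddChar (∑ i, t i * G x i) : ℂ)‖ ≤ B) :
    |(p : ℝ) ^ m * (Nat.card {x : V // G x = a} : ℝ) - Fintype.card V| ≤ (p : ℝ) ^ m * B := by
  classical
  have hp : p.Prime := Fact.out
  have hp0 : (0 : ℝ) < p := by exact_mod_cast hp.pos
  have hcard : (Nat.card {x : V // G x = a} : ℂ) = ∑ x : V, if G x = a then (1 : ℂ) else 0 := by
    rw [Nat.card_eq_fintype_card, Fintype.card_subtype, card_filter]
    push_cast
    rfl
  have h1 : (p : ℂ) ^ m * (Nat.card {x : V // G x = a} : ℂ) = ∑ t : Fin m → ZMod p,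
      (ZMod.stdAddChar (-∑ i, t i * a i) : ℂ) *
        ∑ x : V, (ZMod.stdAddChar (∑ i, t i * G x i) : ℂ) := by
    rw [hcard, mul_sum]
    have e1 : ∀ x : V, (p : ℂ) ^ m * (if G x = a then (1 : ℂ) else 0) =
        ∑ t : Fin m → ZMod p, (ZMod.stdAddChar (∑ i, t i * (G x i - a i)) : ℂ) := by
      intro x
      rw [orth' (fun i => G x i - a i), Fintype.card_fin]
      by_cases hx : G x = a
      · rw [if_pos hx, if_pos (by funext i; rw [hx]; simp), mul_one]
      · rw [if_neg hx, if_neg, mul_zero]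
        intro h3
        exact hx (funext fun i => sub_eq_zero.mp (congrFun h3 i))
    rw [sum_congr rfl fun x _ => e1 x, sum_comm]
    refine sum_congr rfl fun t _ => ?_
    rw [mul_sum]
    refine sum_congr rfl fun x _ => ?_
    rw [← AddChar.map_add_eq_mul]
    congr 1
    rw [neg_add_eq_sub, ← sum_sub_distrib]
    exact sum_congr rfl fun i _ => by ring
  rw [← add_sum_erase univ _ (mem_univ (0 : Fin m → ZMod p))] at h1
  have h2 : (ZMod.stdAddChar (-∑ i, (0 : Fin m → ZMod p) i * a i) : ℂ) *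
      ∑ x : V, (ZMod.stdAddChar (∑ i, (0 : Fin m → ZMod p) i * G x i) : ℂ) = Fintype.card V := by
    simp
  rw [h2] at h1
  have h3 : ‖(p : ℂ) ^ m * (Nat.card {x : V // G x = a} : ℂ) - Fintype.card V‖ ≤ (p : ℝ) ^ m * B := by
    rw [h1, add_sub_cancel_left]
    refine (norm_sum_le _ _).trans ?_
    have e1 : ∀ t ∈ (univ : Finset (Fin m → ZMod p)).erase 0,
        ‖(ZMod.stdAddChar (-∑ i, t i * a i) : ℂ) *
        ∑ x : V, (ZMod.stdAddChar (∑ i, t i * G x i) : ℂ)‖ ≤ B := by
      intro t ht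
      rw [norm_mul, AddChar.norm_apply, one_mul]
      exact hB t (ne_of_mem_erase ht)
    refine (sum_le_sum e1).trans ?_
    rw [sum_const, nsmul_eq_mul]
    apply mul_le_mul_of_nonneg_right _ hB0
    have e2 : (((univ : Finset (Fin m → ZMod p)).erase 0).card : ℝ) ≤
        ((univ : Finset (Fin m → ZMod p)).card : ℝ) := by
      exact_mod_cast card_le_card (erase_subset _ _)
    refine e2.trans (le_of_eq ?_)
    rw [card_univ, Fintype.card_fun, ZMod.card, Fintype.card_fin]
    push_cast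
    rfl
  have h4 : (p : ℂ) ^ m * (Nat.card {x : V // G x = a} : ℂ) - Fintype.card V =
      (((p : ℝ) ^ m * (Nat.card {x : V // G x = a} : ℝ) - Fintype.card V : ℝ) : ℂ) := by
    push_cast
    ring
  rw [h4, Complex.norm_real, Real.norm_eq_abs] at h3
  exact h3

/-- sums of separated functions -/
lemma sep {d : ℕ} (φ : Fin d → ZMod p → ZMod p) (c : ZMod p) :
    ‖∑ x : Fin d → ZMod p, (ZMod.stdAddChar (∑ j, φ j (x j) + c) : ℂ)‖ =
      ∏ j, ‖∑ x : ZMod p, (ZMod.stdAddChar (φ j x) : ℂ)‖ := by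
  classical
  have h1 : ∑ x : Fin d → ZMod p, (ZMod.stdAddChar (∑ j, φ j (x j) + c) : ℂ) =
      (∏ j, ∑ x : ZMod p, (ZMod.stdAddChar (φ j x) : ℂ)) * (ZMod.stdAddChar c : ℂ) := by
    rw [Finset.prod_univ_sum, Fintype.piFinset_univ, sum_mul]
    refine sum_congr rfl fun x _ => ?_
    rw [AddChar.map_add_eq_mul, psi_sum']
  rw [h1, norm_mul, AddChar.norm_apply, mul_one, norm_prod]

end

/-- balanced families from exponential sums -/
theorem balanced_of_sums {ι : Type} {n : ℕ} (F : ι → MvPolynomial (Fin n) ℤ) (B : ℕ) (C : ℝ)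
    (hC : 0 ≤ C)
    (h1 : ∀ (p : ℕ) [Fact p.Prime], B < p → ∀ j, ∀ t : ZMod p, t ≠ 0 →
      ‖∑ x : Fin n → ZMod p, (ZMod.stdAddChar (t * aeval x (F j)) : ℂ)‖ * (p : ℝ) ^ 2 ≤
        C * (p : ℝ) ^ n)
    (h2 : ∀ (p : ℕ) [Fact p.Prime], B < p → ∀ i j, i ≠ j → ∀ t t' : ZMod p, (t ≠ 0 ∨ t' ≠ 0) →
      ‖∑ x : Fin n → ZMod p,
        (ZMod.stdAddChar (t * aeval x (F i) + t' * aeval x (F j)) : ℂ)‖ * (p : ℝ) ^ 2 ≤
        C * (p : ℝ) ^ n) :
    Balanced F (fun _ => ∅) ∧ ∀ j, ∀ k : ℤ, F j ≠ MvPolynomial.C k := by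
  refine ⟨?_, ?_⟩
  swap
  · intro j c hc
    obtain ⟨N, hN⟩ := exists_nat_ge (C + B + 2)
    obtain ⟨p, hpN, hp⟩ := Nat.exists_infinite_primes N
    have : Fact p.Prime := ⟨hp⟩
    have hpR : C + B + 2 ≤ p := hN.trans (by exact_mod_cast hpN)
    have hBp : B < p := by
      have : (B : ℝ) < p := by linarith
      exact_mod_cast this
    have h3 := h1 p hBp j 1 one_ne_zero
    have h4 : ∀ x : Fin n → ZMod p, (ZMod.stdAddChar (1 * aeval x (F j)) : ℂ) =
        (ZMod.stdAddChar ((c : ZMod p)) : ℂ) := by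
      intro x
      rw [hc, one_mul, aeval_C]
      rfl
    rw [sum_congr rfl fun x _ => h4 x, sum_const, card_univ, nsmul_eq_mul, norm_mul,
      AddChar.norm_apply, mul_one, Complex.norm_natCast, Fintype.card_fun, ZMod.card,
      Fintype.card_fin, mul_comm] at h3
    push_cast at h3
    have hp0 : (0 : ℝ) < (p : ℝ) ^ n := by
      have : (0 : ℝ) < p := by linarith [(Nat.cast_nonneg B : (0 : ℝ) ≤ B)]
      positivity
    have h5 := le_of_mul_le_mul_right h3 hp0
    have hB0 : (0 : ℝ) ≤ B := Nat.cast_nonneg _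
    nlinarith
  refine ⟨B, C + 1, 1, one_pos, fun p hp hBp => ?_⟩
  have : Fact p.Prime := ⟨hp⟩
  have hp0 : (0 : ℝ) < p := by exact_mod_cast hp.pos
  have hcV : ((Fintype.card (Fin n → ZMod p) : ℕ) : ℝ) = (p : ℝ) ^ n := by
    rw [Fintype.card_fun, ZMod.card, Fintype.card_fin]
    push_cast
    rfl
  constructor
  · intro j r _
    have h3 := cnt (fun (x : Fin n → ZMod p) (_ : Fin 1) => aeval x (F j)) (fun _ => r)
      (C * (p : ℝ) ^ n / (p : ℝ) ^ 2) (by positivity) (by
        intro t ht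
        rw [le_div_iff₀ (by positivity)]
        have ht0 : t 0 ≠ 0 := by
          intro h0
          apply ht
          funext i
          rw [Subsingleton.elim i 0, h0]
          rfl
        simpa using h1 p hBp j (t 0) ht0)
    have e1 : Nat.card {x : Fin n → ZMod p // (fun (_ : Fin 1) => aeval x (F j)) = fun _ => r} =
        Nat.card {x : Fin n → ZMod p // aeval x (F j) = r} := by
      apply Nat.card_congr
      refine Equiv.subtypeEquivRight fun x => ?_
      constructor
      · intro h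
        exact congrFun h 0
      · intro h
        funext _
        exact h
    rw [e1, hcV, pow_one] at h3
    refine h3.trans ?_
    rw [Real.rpow_neg_one]
    have hpn : 0 ≤ (p : ℝ) ^ n := by positivity
    calc (p : ℝ) * (C * (p : ℝ) ^ n / (p : ℝ) ^ 2) = C * (p : ℝ) ^ n * (p : ℝ)⁻¹ := by
          field_simp
      _ ≤ (C + 1) * (p : ℝ) ^ n * (p : ℝ)⁻¹ := by
          apply mul_le_mul_of_nonneg_right _ (by positivity)
          apply mul_le_mul_of_nonneg_right _ hpn
          linarith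
  · intro i j hij r s _ _
    have h3 := cnt (fun (x : Fin n → ZMod p) (l : Fin 2) => if l = 0 then aeval x (F i) else aeval x (F j))
      (fun l => if l = 0 then r else s)
      (C * (p : ℝ) ^ n / (p : ℝ) ^ 2) (by positivity) (by
        intro t ht
        rw [le_div_iff₀ (by positivity)]
        have ht0 : t 0 ≠ 0 ∨ t 1 ≠ 0 := by
          by_contra hcon
          push Not at hcon
          apply ht
          funext l
          fin_cases l
          · exact hcon.1
          · exact hcon.2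
        simpa [Fin.sum_univ_two] using h2 p hBp i j hij (t 0) (t 1) ht0)
    have e1 : Nat.card {x : Fin n → ZMod p //
        (fun (l : Fin 2) => if l = 0 then aeval x (F i) else aeval x (F j)) =
          fun l => if l = 0 then r else s} =
        Nat.card {x : Fin n → ZMod p // aeval x (F i) = r ∧ aeval x (F j) = s} := by
      apply Nat.card_congr
      refine Equiv.subtypeEquivRight fun x => ?_
      constructor
      · intro h
        have a1 := congrFun h 0
        have a2 := congrFun h 1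
        simp only [if_true, one_ne_zero, if_false] at a1 a2
        exact ⟨a1, a2⟩
      · rintro ⟨a1, a2⟩
        funext l
        split_ifs
        · exact a1
        · exact a2
    rw [e1, hcV] at h3
    have h4 := (abs_le.mp h3).2
    have h5 : (p : ℝ) ^ 2 * (C * (p : ℝ) ^ n / (p : ℝ) ^ 2) = C * (p : ℝ) ^ n := by
      field_simp
    rw [h5] at h4
    linarith

section

variable {p : ℕ} [Fact p.Prime]

/-- Weil's bound for a polynomial plus a linear form, coefficients reduced modulo `p` -/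
lemma weil_lin (q : Polynomial ℤ) (k : ℕ) (hk : 2 ≤ k) (hq : q.natDegree = k) (hkp : k < p)
    (hlc : ¬ (p : ℤ) ∣ q.leadingCoeff) (t h : ZMod p) (ht : t ≠ 0) :
    ‖∑ x : ZMod p, (ZMod.stdAddChar (t * (q.map (Int.castRingHom (ZMod p))).eval x + h * x) : ℂ)‖ ≤
      k * Real.sqrt p := by
  have hp' : p.Prime := Fact.out
  obtain ⟨G, hG⟩ : ∃ G : Polynomial (ZMod p), G = Polynomial.C t * q.map (Int.castRingHom (ZMod p)) +
    Polynomial.C h * Polynomial.X := ⟨_, rfl⟩
  have hlc' : ((q.leadingCoeff : ℤ) : ZMod p) ≠ 0 := by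
    rw [Ne, ZMod.intCast_zmod_eq_zero_iff_dvd]
    exact hlc
  have hd1 : (q.map (Int.castRingHom (ZMod p))).natDegree = k := by
    rw [Polynomial.natDegree_map_of_leadingCoeff_ne_zero, hq]
    exact hlc'
  have hd2 : (Polynomial.C t * q.map (Int.castRingHom (ZMod p))).natDegree = k := by
    rw [Polynomial.natDegree_C_mul ht, hd1]
  have hd : G.natDegree = k := by
    rw [hG, Polynomial.natDegree_add_eq_left_of_natDegree_lt, hd2]
    rw [hd2]
    exact lt_of_le_of_lt ((Polynomial.natDegree_C_mul_le h _).trans Polynomial.natDegree_X_le) (by omega)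
  have h1 := Pool.Agent.Y951.WP.weil_le p G (by
    rw [hd]
    intro hdvd
    have := Nat.le_of_dvd (by omega) hdvd
    omega) (ZMod.isPrimitive_stdAddChar p)
  rw [hd] at h1
  have h2 : ∑ x : ZMod p, (ZMod.stdAddChar
      (t * (q.map (Int.castRingHom (ZMod p))).eval x + h * x) : ℂ) =
      ∑ x : ZMod p, (ZMod.stdAddChar (G.eval x) : ℂ) := by
    refine sum_congr rfl fun x _ => ?_
    rw [hG]
    simp
  rw [h2]
  refine h1.trans ?_
  apply mul_le_mul_of_nonneg_right _ (Real.sqrt_nonneg _)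
  exact_mod_cast Nat.sub_le _ _

end

open scoped Classical in
/-- the family: the coordinates `Q y i + r i` and the value `c - ∑ σ i * q i (y i)` -/
noncomputable def fam {d : ℕ} (Q c : ℤ) (r σ : Fin d → ℤ) (q : Fin d → Polynomial ℤ) :
    Option (Fin d) → MvPolynomial (Fin d) ℤ
  | some i => C Q * X i + C (r i)
  | none => C c - ∑ i, C (σ i) * Polynomial.aeval (X i) (q i)

lemma fam_eval_some {d : ℕ} (Q c : ℤ) (r σ : Fin d → ℤ) (q : Fin d → Polynomial ℤ) (i : Fin d)
    (y : Fin d → ℤ) : eval y (fam Q c r σ q (some i)) = Q * y i + r i := by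
  simp [fam]

lemma fam_eval_none {d : ℕ} (Q c : ℤ) (r σ : Fin d → ℤ) (q : Fin d → Polynomial ℤ)
    (y : Fin d → ℤ) : eval y (fam Q c r σ q none) = c - ∑ i, σ i * (q i).eval (y i) := by
  simp only [fam, map_sub, eval_C, map_sum, map_mul]
  congr 1
  refine sum_congr rfl fun i _ => ?_
  congr 1
  rw [Polynomial.aeval_def, Polynomial.hom_eval₂, eval_X, Polynomial.eval,
    Subsingleton.elim ((eval y).comp (algebraMap ℤ (MvPolynomial (Fin d) ℤ))) (RingHom.id ℤ)]

section

variable {p : ℕ} [Fact p.Prime]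

lemma fam_aeval_some {d : ℕ} (Q c : ℤ) (r σ : Fin d → ℤ) (q : Fin d → Polynomial ℤ) (i : Fin d)
    (x : Fin d → ZMod p) : aeval x (fam Q c r σ q (some i)) = (Q : ZMod p) * x i + (r i : ZMod p) := by
  simp [fam]

lemma fam_aeval_none {d : ℕ} (Q c : ℤ) (r σ : Fin d → ℤ) (q : Fin d → Polynomial ℤ)
    (x : Fin d → ZMod p) : aeval x (fam Q c r σ q none) =
      (c : ZMod p) - ∑ i, (σ i : ZMod p) * ((q i).map (Int.castRingHom (ZMod p))).eval (x i) := by
  have e0 : ∀ z : ℤ, aeval x (C z : MvPolynomial (Fin d) ℤ) = (z : ZMod p) := by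
    intro z
    rw [aeval_C]
    rfl
  show aeval x (C c - ∑ i, C (σ i) * Polynomial.aeval (X i) (q i)) = _
  rw [map_sub, e0, map_sum]
  congr 1
  refine sum_congr rfl fun i _ => ?_
  rw [map_mul, e0]
  congr 1
  have h1 : aeval x (Polynomial.aeval (X i : MvPolynomial (Fin d) ℤ) (q i)) =
      (aeval x : MvPolynomial (Fin d) ℤ →ₐ[ℤ] ZMod p).toRingHom
        (Polynomial.eval₂ (algebraMap ℤ (MvPolynomial (Fin d) ℤ)) (X i) (q i)) := rfl
  rw [h1, Polynomial.hom_eval₂, Polynomial.eval_map]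
  congr 1
  · exact Subsingleton.elim _ _
  · exact aeval_X x i

/-- the sums of one coordinate and the value -/
lemma sum_mixed {d : ℕ} (Q c : ℤ) (r σ : Fin d → ℤ) (q : Fin d → Polynomial ℤ) (k : ℕ) (hk : 2 ≤ k)
    (hq : ∀ i, (q i).natDegree = k) (hσ : ∀ i, σ i = 1 ∨ σ i = -1) (hkp : k < p)
    (hlc : ∀ i, ¬ (p : ℤ) ∣ (q i).leadingCoeff) (i : Fin d) (t s : ZMod p) (hs : s ≠ 0) :
    ‖∑ x : Fin d → ZMod p, (ZMod.stdAddChar (t * aeval x (fam Q c r σ q (some i)) +
      s * aeval x (fam Q c r σ q none)) : ℂ)‖ ≤ (k * Real.sqrt p) ^ d := by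
  classical
  have h1 : ∀ x : Fin d → ZMod p, t * aeval x (fam Q c r σ q (some i)) +
      s * aeval x (fam Q c r σ q none) =
      ∑ j, ((-(s * σ j)) * ((q j).map (Int.castRingHom (ZMod p))).eval (x j) +
        (if j = i then t * Q else 0) * x j) + (t * r i + s * c) := by
    intro x
    rw [fam_aeval_some, fam_aeval_none, sum_add_distrib]
    have e1 : ∑ j, (if j = i then t * (Q : ZMod p) else 0) * x j = t * Q * x i := by
      simp [ite_mul]
    have e2 : ∑ j, (-(s * (σ j : ZMod p))) * ((q j).map (Int.castRingHom (ZMod p))).eval (x j) =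
        -(s * ∑ j, (σ j : ZMod p) * ((q j).map (Int.castRingHom (ZMod p))).eval (x j)) := by
      rw [mul_sum, ← sum_neg_distrib]
      exact sum_congr rfl fun j _ => by ring
    rw [e1, e2]
    ring
  rw [sum_congr rfl fun x _ => congrArg (fun z => (ZMod.stdAddChar z : ℂ)) (h1 x), sep
    (fun j x => (-(s * σ j)) * ((q j).map (Int.castRingHom (ZMod p))).eval x +
        (if j = i then t * Q else 0) * x)]
  have h2 : (k * Real.sqrt p) ^ d = ∏ _j : Fin d, (k * Real.sqrt p) := by
    rw [prod_const, card_univ, Fintype.card_fin]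
  rw [h2]
  refine prod_le_prod (fun j _ => norm_nonneg _) fun j _ => ?_
  refine weil_lin (q j) k hk (hq j) hkp (hlc j) _ _ ?_
  rw [neg_ne_zero]
  apply mul_ne_zero hs
  rcases hσ j with h | h
  · rw [h]; simp
  · rw [h]; simp

/-- linear sums vanish -/
lemma sum_linear {d : ℕ} (α : Fin d → ZMod p) (c : ZMod p) (hα : α ≠ 0) :
    ∑ x : Fin d → ZMod p, (ZMod.stdAddChar (∑ j, α j * x j + c) : ℂ) = 0 := by
  have h1 : ∀ x : Fin d → ZMod p, (ZMod.stdAddChar (∑ j, α j * x j + c) : ℂ) =
      (ZMod.stdAddChar (∑ j, x j * α j) : ℂ) * (ZMod.stdAddChar c : ℂ) := by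
    intro x
    rw [AddChar.map_add_eq_mul]
    congr 2
    exact sum_congr rfl fun j _ => mul_comm _ _
  rw [sum_congr rfl fun x _ => h1 x, ← sum_mul, orth', if_neg hα, zero_mul]

end

/-- **the family is balanced** -/
theorem fam_balanced {d : ℕ} (hd : 4 ≤ d) (Q c : ℤ) (hQ : Q ≠ 0) (r σ : Fin d → ℤ)
    (q : Fin d → Polynomial ℤ) (k : ℕ) (hk : 2 ≤ k) (hq : ∀ i, (q i).natDegree = k)
    (hσ : ∀ i, σ i = 1 ∨ σ i = -1) :
    Balanced (fam Q c r σ q) (fun _ => ∅) ∧
      ∀ j, ∀ k : ℤ, fam Q c r σ q j ≠ MvPolynomial.C k := by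
  classical
  have hlc0 : ∀ i, (q i).leadingCoeff ≠ 0 := by
    intro i h
    rw [Polynomial.leadingCoeff_eq_zero] at h
    have := hq i
    rw [h, Polynomial.natDegree_zero] at this
    omega
  obtain ⟨B, hB⟩ : ∃ B : ℕ, B = Q.natAbs + k + ∑ i, (q i).leadingCoeff.natAbs := ⟨_, rfl⟩
  have hnd : ∀ p : ℕ, B < p → ∀ z : ℤ, z ≠ 0 → z.natAbs ≤ B → ¬ (p : ℤ) ∣ z := by
    intro p hp z hz hzB hdvd
    have h1 := Int.natAbs_dvd_natAbs.2 hdvd
    rw [Int.natAbs_natCast] at h1
    have h2 := Nat.le_of_dvd (Int.natAbs_pos.2 hz) h1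
    omega
  have hlcB : ∀ i, (q i).leadingCoeff.natAbs ≤ B := by
    intro i
    have : (q i).leadingCoeff.natAbs ≤ ∑ i, (q i).leadingCoeff.natAbs :=
      single_le_sum (f := fun i => (q i).leadingCoeff.natAbs) (fun _ _ => Nat.zero_le _) (mem_univ i)
    omega
  have hQB : Q.natAbs ≤ B := by omega
  have hweil : ∀ (p : ℕ) [Fact p.Prime], B < p → ∀ S : ℝ, S ≤ (k * Real.sqrt p) ^ d →
      S * (p : ℝ) ^ 2 ≤ (k : ℝ) ^ d * (p : ℝ) ^ d := by
    intro p hp hBp S hS
    have hp0 : (0 : ℝ) < p := by exact_mod_cast (Fact.out : p.Prime).pos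
    have hp1 : (1 : ℝ) ≤ p := by exact_mod_cast (Fact.out : p.Prime).one_lt.le
    have h1 : (Real.sqrt p) ^ d * (p : ℝ) ^ 2 ≤ (p : ℝ) ^ d := by
      have h2 : (p : ℝ) ^ 2 = (Real.sqrt p) ^ 4 := by
        calc (p : ℝ) ^ 2 = (Real.sqrt p ^ 2) ^ 2 := by rw [Real.sq_sqrt hp0.le]
          _ = _ := by ring
      have h3 : (p : ℝ) ^ d = (Real.sqrt p) ^ (d + d) := by
        calc (p : ℝ) ^ d = (Real.sqrt p ^ 2) ^ d := by rw [Real.sq_sqrt hp0.le]
          _ = _ := by rw [← pow_mul]; ring_nf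
      rw [h2, h3, ← pow_add]
      apply pow_le_pow_right₀ _ (by omega)
      rw [Real.one_le_sqrt]
      exact hp1
    calc S * (p : ℝ) ^ 2 ≤ (k * Real.sqrt p) ^ d * (p : ℝ) ^ 2 :=
          mul_le_mul_of_nonneg_right hS (by positivity)
      _ = (k : ℝ) ^ d * ((Real.sqrt p) ^ d * (p : ℝ) ^ 2) := by rw [mul_pow]; ring
      _ ≤ (k : ℝ) ^ d * (p : ℝ) ^ d := mul_le_mul_of_nonneg_left h1 (by positivity)
  have hlin : ∀ (p : ℕ) [Fact p.Prime], B < p → ∀ (α : Fin d → ZMod p) (e : ZMod p)
      (φ : (Fin d → ZMod p) → ZMod p), α ≠ 0 → (∀ x, φ x = ∑ j, α j * x j + e) →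
      ‖∑ x : Fin d → ZMod p, (ZMod.stdAddChar (φ x) : ℂ)‖ * (p : ℝ) ^ 2 ≤
        (k : ℝ) ^ d * (p : ℝ) ^ d := by
    intro p hp hBp α e φ hα hφ
    rw [sum_congr rfl fun x _ => congrArg (fun z => (ZMod.stdAddChar z : ℂ)) (hφ x),
      sum_linear α e hα, norm_zero, zero_mul]
    positivity
  have i₀ : Fin d := ⟨0, by omega⟩
  have hQp : ∀ (p : ℕ) [Fact p.Prime], B < p → (Q : ZMod p) ≠ 0 := by
    intro p hp hBp
    rw [Ne, ZMod.intCast_zmod_eq_zero_iff_dvd]
    exact hnd p hBp Q hQ hQB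
  have hmix : ∀ (p : ℕ) [Fact p.Prime], B < p → ∀ (i : Fin d) (t s : ZMod p), (t ≠ 0 ∨ s ≠ 0) →
      ‖∑ x : Fin d → ZMod p, (ZMod.stdAddChar (t * aeval x (fam Q c r σ q (some i)) +
      s * aeval x (fam Q c r σ q none)) : ℂ)‖ * (p : ℝ) ^ 2 ≤ (k : ℝ) ^ d * (p : ℝ) ^ d := by
    intro p hp hBp i t s hts
    by_cases hs : s = 0
    · have ht : t ≠ 0 := by
        rcases hts with h | h
        · exact h
        · exact absurd hs h
      refine hlin p hBp (fun j => if j = i then t * Q else 0) (t * r i) _ ?_ ?_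
      · intro h0
        have := congrFun h0 i
        simp only [if_true, Pi.zero_apply, mul_eq_zero] at this
        rcases this with h | h
        · exact ht h
        · exact hQp p hBp h
      · intro x
        rw [fam_aeval_some, hs]
        simp [ite_mul]
        ring
    · exact hweil p hBp _ (sum_mixed Q c r σ q k hk hq hσ (by omega)
        (fun j => hnd p hBp _ (hlc0 j) (hlcB j)) i t s hs)
  refine balanced_of_sums _ B ((k : ℝ) ^ d) (by positivity) ?_ ?_
  · intro p hp hBp j t ht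
    cases j with
    | none =>
      have h1 := hmix p hBp i₀ 0 t (Or.inr ht)
      simpa using h1
    | some i =>
      have h1 := hmix p hBp i t 0 (Or.inl ht)
      simpa using h1
  · intro p hp hBp i j hij t t' htt
    cases i with
    | none =>
      cases j with
      | none => exact absurd rfl hij
      | some j =>
        have h1 := hmix p hBp j t' t htt.symm
        simpa [add_comm] using h1
    | some i =>
      cases j with
      | none => exact hmix p hBp i t t' htt
      | some j =>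
        have hij' : i ≠ j := fun h => hij (by rw [h])
        refine hlin p hBp (fun l => (if l = i then t * Q else 0) + (if l = j then t' * Q else 0))
          (t * r i + t' * r j) _ ?_ ?_
        · intro h0
          rcases htt with h | h
          · have := congrFun h0 i
            simp only [if_true, Pi.zero_apply, if_neg hij', add_zero, mul_eq_zero] at this
            rcases this with h' | h'
            · exact h h'
            · exact hQp p hBp h'
          · have := congrFun h0 j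
            simp only [if_true, Pi.zero_apply, if_neg hij'.symm, zero_add, mul_eq_zero] at this
            rcases this with h' | h'
            · exact h h'
            · exact hQp p hBp h'
        · intro x
          rw [fam_aeval_some, fam_aeval_some]
          simp only [add_mul, sum_add_distrib, ite_mul, zero_mul, sum_ite_eq', mem_univ, if_true]
          ring

end Pool.Agent.U642.EW
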