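import Pool.Agent.U642.EW.Main

set_option autoImplicit false

/-! # The easier Waring problem in record gaps: the core -/

namespace Pool.Agent.U642.EW

open Finset Filter
open Pool.Agent.W147.PS (ff ff_compare ev_pow)
open Pool.Agent.N542.PT (Crit WellDist Good Balanced crit_balanced)

/-- `v` is at distance more than `κ f(v)` from the primes -/
def Far (κ : ℝ) (v : ℤ) : Prop := ∀ l : ℕ, l.Prime → κ * ff v < |(l : ℝ) - v|

/-- the final step: a gap for the scale of `Z` is a gap for the scale of `v` -/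
lemma far_of (κ₁ : ℝ) (hκ₁ : 0 < κ₁) (E : ℕ) (hE : 1 ≤ E) : ∀ᶠ Z : ℝ in atTop,
    ∀ v : ℤ, Z ^ 2 ≤ v → (v : ℝ) ≤ Z ^ E →
    (∀ l : ℕ, l.Prime → |(l : ℝ) - v| ≤ κ₁ * ff Z → (l : ℝ) ≤ Z) →
    Far (κ₁ * (1 / E) / 32) v := by
  have hER : (1 : ℝ) ≤ E := by exact_mod_cast hE
  have hE0 : (0 : ℝ) < E := by linarith
  obtain ⟨v₀, hv₀⟩ := eventually_atTop.mp (ff_compare (1 / E) (by positivity) (by
    rw [div_le_one hE0]; exact hER))
  filter_upwards [ff_up κ₁, eventually_ge_atTop v₀, eventually_gt_atTop (2 : ℝ)] with Z h1 h2 h3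
  intro v hv1 hv2 hl l hlp
  by_contra hcon
  push Not at hcon
  have hZv : Z ≤ v := by nlinarith
  have hv0 : (0 : ℝ) < v := by linarith
  have h4 := ((hv₀ v (h2.trans hZv)).2 Z (by
    calc (v : ℝ) ^ (1 / (E : ℝ)) ≤ (Z ^ E) ^ (1 / (E : ℝ)) :=
          Real.rpow_le_rpow hv0.le hv2 (by positivity)
      _ = Z := by
          rw [← Real.rpow_natCast, ← Real.rpow_mul (by linarith), mul_one_div_cancel hE0.ne',
            Real.rpow_one]) (by nlinarith)).1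
  have h5 : κ₁ * (1 / E) / 32 * ff v ≤ κ₁ * ff Z := by
    calc κ₁ * (1 / E) / 32 * ff v = κ₁ * (1 / E / 32 * ff v) := by ring
      _ ≤ κ₁ * ff Z := mul_le_mul_of_nonneg_left h4 hκ₁.le
  have h6 := hl l hlp (hcon.trans h5)
  have h7 := abs_le.mp (hcon.trans h5)
  have h8 : (v : ℝ) ≤ l + κ₁ * ff Z := by linarith [h7.1]
  nlinarith

lemma box_small {Q L y R : ℤ} (hQ : 1 ≤ Q) (hL : 1 ≤ L) (h1 : L < y) (h2 : y ≤ L + L) (h3 : 0 ≤ R)
    (h4 : R ≤ Q) : L ≤ Q * y + R ∧ Q * y + R ≤ 3 * Q * L := by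
  have h5 : 1 * y ≤ Q * y := mul_le_mul_of_nonneg_right hQ (by linarith)
  have h6 : Q * y ≤ Q * (L + L) := mul_le_mul_of_nonneg_left h2 (by linarith)
  have h7 : Q * 1 ≤ Q * L := mul_le_mul_of_nonneg_left hL (by linarith)
  constructor
  · linarith
  · linarith

lemma box_large {Q L y R : ℤ} (hQ : 1 ≤ Q) (hL : 1 ≤ L) (h1 : L ^ 2 < y) (h2 : y ≤ L ^ 2 + L)
    (h3 : 0 ≤ R) (h4 : R ≤ Q) : L ^ 2 ≤ Q * y + R ∧ Q * y + R ≤ 3 * Q * L ^ 2 := by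
  have h0 : (0 : ℤ) ≤ L ^ 2 := by positivity
  have h5 : 1 * y ≤ Q * y := mul_le_mul_of_nonneg_right hQ (by linarith)
  have h6 : Q * y ≤ Q * (L ^ 2 + L) := mul_le_mul_of_nonneg_left h2 (by linarith)
  have hLL : L ≤ L ^ 2 := le_self_pow₀ hL (by norm_num)
  have h7 : Q * L ≤ Q * L ^ 2 := mul_le_mul_of_nonneg_left hLL (by linarith)
  have h8 : Q * 1 ≤ Q * L ^ 2 := mul_le_mul_of_nonneg_left (by linarith) (by linarith)
  constructor
  · linarith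
  · linarith

set_option maxHeartbeats 4000000 in
/-- **the core**: `N = Δ^(k - 1) P (z) + ∑ ± P (x i)` with all the numbers in record gaps -/
theorem core (P : Polynomial ℤ) (n : ℕ) (hn1 : 1 ≤ n) (hn : P.natDegree = n + 1)
    (ha : 0 < P.leadingCoeff)
    (hfix : ∀ l : ℕ, l.Prime → ∃ x y : ℤ, ¬ (l : ℤ) ∣ P.eval x - P.eval y) :
    ∃ (d : ℕ) (κ : ℝ), 0 < κ ∧ ∀ (N : ℤ) (Y : ℝ), ∃ (x : Fin d → ℤ) (z : ℤ),
      Y ≤ z ∧ (∀ i, Y ≤ x i) ∧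
      ∑ j ∈ range (n + 1), ((-1 : ℤ) ^ (n - j) * (n.choose j : ℤ)) * P.eval (z + j) +
        ∑ i : Fin d, (-1 : ℤ) ^ (i : ℕ) * P.eval (x i) = N ∧
      (∀ j ∈ range (n + 1), Far κ (z + j)) ∧ ∀ i, Far κ (x i) := by
  classical
  obtain ⟨D, hD⟩ := lin_diff P n hn
  obtain ⟨H, hH1, hP1, hP2⟩ := poly_bounds P n hn ha
  -- the modulus
  obtain ⟨Q, hQ⟩ : ∃ Q : ℕ, (Q : ℤ) = ((n + 1).factorial : ℤ) * P.leadingCoeff :=
    ⟨(n + 1).factorial * P.leadingCoeff.toNat, by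
      push_cast
      rw [Int.toNat_of_nonneg ha.le]⟩
  have hQ1 : 1 ≤ Q := by
    have h1 : (0 : ℤ) < Q := by
      rw [hQ]
      have : (0 : ℤ) < ((n + 1).factorial : ℤ) := by exact_mod_cast Nat.factorial_pos _
      positivity
    exact_mod_cast h1
  have hQZ : (1 : ℤ) ≤ Q := by exact_mod_cast hQ1
  have hQ0 : (Q : ℤ) ≠ 0 := by omega
  rw [← hQ] at hD
  obtain ⟨n', hn'2, hT⟩ := T_res P hfix Q hQ1
  obtain ⟨d, hd⟩ : ∃ d : ℕ, d = 2 * n' := ⟨_, rfl⟩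
  have hd4 : 4 ≤ d := by omega
  obtain ⟨σ, hσ⟩ : ∃ σ : Fin d → ℤ, σ = fun i : Fin d => (-1 : ℤ) ^ (i : ℕ) := ⟨_, rfl⟩
  have hσ' : ∀ i, σ i = 1 ∨ σ i = -1 := by
    intro i
    rw [hσ]
    exact neg_one_pow_eq_or ℤ _
  have hσabs : ∀ i, |σ i| = 1 := by
    intro i
    rcases hσ' i with h | h <;> rw [h] <;> simp
  obtain ⟨i₁, hi₁⟩ : ∃ i₁ : Fin d, i₁ = ⟨1, by omega⟩ := ⟨_, rfl⟩
  have hσ1 : σ i₁ = -1 := by rw [hσ, hi₁]; simp
  -- the polynomials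
  choose q hq1 hq2 using fun r : ℤ => shift_div P n hn Q hQ0 r
  -- the criterion for the finitely many families
  have hcr : ∀ r : Fin d → Fin Q, ∃ c : ℝ, 0 < c ∧ ∃ Z₀ : ℝ, ∀ Z : ℝ, Z₀ ≤ Z →
      ∀ (α : Type) (s : Finset α) (w : α → Fin d → ℤ), s.Nonempty → WellDist Z s w →
      ∃ a ∈ s, ∀ j, ∀ m : ℤ, |(m : ℝ) - (MvPolynomial.eval (w a)
          (fam Q 0 (fun i => ((r i : ℕ) : ℤ)) σ (fun i => q ((r i : ℕ) : ℤ)) j) : ℤ)| ≤ c * ff Z →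
        ∃ p : ℕ, p.Prime ∧ (p : ℝ) ≤ Z ^ (1 / 10 : ℝ) ∧ (p : ℤ) ∣ m := by
    intro r
    obtain ⟨h1, h2⟩ := fam_balanced hd4 Q 0 hQ0 (fun i => ((r i : ℕ) : ℤ)) σ
      (fun i => q ((r i : ℕ) : ℤ)) (n + 1) (by omega) (fun i => hq1 _) hσ'
    exact crit_balanced _ _ h2 h1
  choose c hc Z₀ hcrit using hcr
  have hne : (univ : Finset (Fin d → Fin Q)).Nonempty :=
    ⟨fun _ => ⟨0, hQ1⟩, mem_univ _⟩
  obtain ⟨rmin, -, hrmin⟩ := exists_min_image univ c hne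
  obtain ⟨κ₁, hκ₁⟩ : ∃ κ₁ : ℝ, κ₁ = c rmin / 2 := ⟨_, rfl⟩
  have hκ₁0 : 0 < κ₁ := by rw [hκ₁]; linarith [hc rmin]
  obtain ⟨E, hE⟩ : ∃ E : ℕ, E = (d + 4) * (2 * n + 4) := ⟨_, rfl⟩
  have hE1 : 1 ≤ E := by
    rw [hE]
    exact Nat.mul_pos (by omega) (by omega)
  refine ⟨d, κ₁ * (1 / E) / 32, by positivity, fun N Y => ?_⟩
  -- the residues
  obtain ⟨u, hu⟩ := hT (N - D)
  obtain ⟨r, hr⟩ : ∃ r : Fin d → Fin Q, ∀ i : Fin d, (Q : ℤ) ∣ u i - ((r i : ℕ) : ℤ) := by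
    have hQpos : (0 : ℤ) < Q := by omega
    refine ⟨fun i => ⟨(u i % Q).toNat, ?_⟩, fun i => ?_⟩
    · have h1 := Int.emod_lt_of_pos (u i) hQpos
      have h2 := Int.emod_nonneg (u i) hQ0
      omega
    · have h2 := Int.emod_nonneg (u i) hQ0
      simp only
      rw [Int.toNat_of_nonneg h2]
      exact Int.dvd_self_sub_emod
  obtain ⟨R, hR⟩ : ∃ R : Fin d → ℤ, R = fun i => ((r i : ℕ) : ℤ) := ⟨_, rfl⟩
  have hR0 : ∀ i, 0 ≤ R i ∧ R i ≤ Q := by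
    intro i
    rw [hR]
    have := (r i).2
    constructor
    · positivity
    · show (((r i : ℕ) : ℤ)) ≤ Q
      exact_mod_cast this.le
  obtain ⟨c₀, hc₀⟩ : (Q : ℤ) ∣ N - D - ∑ i, σ i * P.eval (R i) := by
    have h1 : T P n' u = ∑ i : Fin d, σ i * P.eval (u i) := by
      unfold T
      rw [← hd, hσ, ← Fin.sum_univ_eq_sum_range (fun i => (-1 : ℤ) ^ i * P.eval (u i)) d]
    have h2 : N - D - ∑ i, σ i * P.eval (R i) = (N - D - T P n' u) +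
        ∑ i, σ i * (P.eval (u i) - P.eval (R i)) := by
      rw [h1]
      simp only [mul_sub, sum_sub_distrib]
      ring
    rw [h2]
    refine dvd_add hu (dvd_sum fun i _ => Dvd.dvd.mul_left ?_ _)
    refine dvd_trans ?_ (Polynomial.sub_dvd_eval_sub (u i) (R i) P)
    rw [hR]
    exact hr i
  obtain ⟨W, hW⟩ : ∃ W : ℤ, W = N - D := ⟨_, rfl⟩
  -- the size of `Z`
  obtain ⟨Z, ⟨⟨⟨⟨⟨g1, g2⟩, g3⟩, g4⟩, g5⟩, g6⟩, g7⟩ : ∃ Z : ℝ, (((((Z₀ r ≤ Z ∧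
      (2 : ℝ) ^ d ≤ Z) ∧ |Y| + (2 * H : ℤ) + ((2 * d * H * (3 * Q) ^ (n + 1) + 2 * |W| + 2 * Q : ℤ) : ℝ) +
        (n : ℝ) + 3 * Q + 2 ≤ Z) ∧
      (∀ v : ℤ, Z ^ 2 ≤ v → (v : ℝ) ≤ Z ^ E →
        (∀ l : ℕ, l.Prime → |(l : ℝ) - v| ≤ κ₁ * ff Z → (l : ℝ) ≤ Z) →
        Far (κ₁ * (1 / E) / 32) v)) ∧ (|(c₀ : ℝ)| + n) / κ₁ ≤ Real.log Z) ∧
      Real.log Z ≤ ff Z) ∧ Z ^ (1 / 10 : ℝ) ≤ Z := by
    have h1 := ((((((eventually_ge_atTop (Z₀ r)).and (eventually_ge_atTop ((2 : ℝ) ^ d))).and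
      (eventually_ge_atTop (|Y| + (2 * H : ℤ) +
        ((2 * d * H * (3 * Q) ^ (n + 1) + 2 * |W| + 2 * Q : ℤ) : ℝ) + (n : ℝ) + 3 * Q + 2))).and
      (far_of κ₁ hκ₁0 E hE1)).and
      (Real.tendsto_log_atTop.eventually_ge_atTop ((|(c₀ : ℝ)| + n) / κ₁))).and
      ((ff_compare 1 one_pos le_rfl).mono fun M h => h.1)).and
      ((eventually_ge_atTop (1 : ℝ)).mono fun M (h : 1 ≤ M) => by
        calc M ^ (1 / 10 : ℝ) ≤ M ^ (1 : ℝ) := Real.rpow_le_rpow_of_exponent_le h (by norm_num)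
          _ = M := Real.rpow_one M)
    exact h1.exists
  have hHR : (0 : ℝ) ≤ ((2 * H : ℤ) : ℝ) := by
    have : (0 : ℤ) ≤ 2 * H := by omega
    exact_mod_cast this
  have hGR : (0 : ℝ) ≤ ((2 * d * H * (3 * Q) ^ (n + 1) + 2 * |W| + 2 * Q : ℤ) : ℝ) := by
    have : (0 : ℤ) ≤ 2 * d * H * (3 * Q) ^ (n + 1) + 2 * |W| + 2 * Q := by positivity
    exact_mod_cast this
  have hQR : (1 : ℝ) ≤ Q := by exact_mod_cast hQ1
  have hnR : (0 : ℝ) ≤ n := Nat.cast_nonneg n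
  have hY0 := abs_nonneg Y
  have hZ2 : 2 ≤ Z := by linarith
  have hZ0 : 0 < Z := by linarith
  have hZ1 : 1 ≤ Z := by linarith
  -- the length
  obtain ⟨L, hLdef⟩ : ∃ L : ℕ, L = ⌈Z ^ (d + 3)⌉₊ := ⟨_, rfl⟩
  have hL1 : Z ^ (d + 3) ≤ L := by rw [hLdef]; exact Nat.le_ceil _
  have hL2 : (L : ℝ) ≤ Z ^ (d + 4) := by
    have h1 : (L : ℝ) ≤ Z ^ (d + 3) + 1 := by rw [hLdef]; exact (Nat.ceil_lt_add_one (by positivity)).le
    have h2 : (1 : ℝ) ≤ Z ^ (d + 3) := one_le_pow₀ hZ1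
    calc (L : ℝ) ≤ Z ^ (d + 3) * 2 := by linarith
      _ ≤ Z ^ (d + 3) * Z := mul_le_mul_of_nonneg_left hZ2 (by positivity)
      _ = Z ^ (d + 4) := by ring
  have hZL2 : Z ^ 2 ≤ L := (pow_le_pow_right₀ hZ1 (by omega)).trans hL1
  have hZL : Z ≤ L := by nlinarith
  have hL3 : 2 * H ≤ (L : ℤ) := by
    have : ((2 * H : ℤ) : ℝ) ≤ ((L : ℤ) : ℝ) := by push_cast; push_cast at g3 hHR hGR; linarith
    exact_mod_cast this
  have hL4 : 2 * d * H * (3 * Q) ^ (n + 1) + 2 * |W| + 2 * Q ≤ (L : ℤ) := by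
    have : ((2 * d * H * (3 * Q) ^ (n + 1) + 2 * |W| + 2 * Q : ℤ) : ℝ) ≤ ((L : ℤ) : ℝ) := by
      push_cast; push_cast at g3 hHR hGR; linarith
    exact_mod_cast this
  have hL5 : 3 * (Q : ℤ) ≤ L := by
    have : (3 * (Q : ℝ)) ≤ L := by push_cast at g3 hHR hGR; linarith
    exact_mod_cast this
  have hL6 : (n : ℤ) + 2 ≤ L := by
    have : (n : ℝ) + 2 ≤ L := by push_cast at g3 hHR hGR; linarith
    exact_mod_cast this
  have hLY : Y ≤ L := by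
    have := le_abs_self Y
    push_cast at g3 hHR hGR
    linarith
  -- the box
  obtain ⟨M, hM⟩ : ∃ M : Fin d → ℤ, M = fun i => if i = i₁ then (L : ℤ) ^ 2 else L := ⟨_, rfl⟩
  obtain ⟨y, hy, hgood⟩ := hcrit r Z g1 (Fin d → ℤ)
    (Fintype.piFinset fun j => Ioc (M j) (M j + L)) (fun x => x) (by
      have hLpos : 0 < L := by
        have : (0 : ℝ) < L := by linarith
        exact_mod_cast this
      refine ⟨fun j => M j + L, ?_⟩
      rw [Fintype.mem_piFinset]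
      intro j
      rw [mem_Ioc]
      omega) (box_wd d Z g2 M L hL1)
  rw [Fintype.mem_piFinset] at hy
  have hy' : ∀ i, M i < y i ∧ y i ≤ M i + L := fun i => mem_Ioc.mp (hy i)
  obtain ⟨x, hx⟩ : ∃ x : Fin d → ℤ, x = fun i => Q * y i + R i := ⟨_, rfl⟩
  obtain ⟨z, hz⟩ : ∃ z : ℤ, z = c₀ - ∑ i, σ i * (q (R i)).eval (y i) := ⟨_, rfl⟩
  have hLZ : (1 : ℤ) ≤ L := by omega
  have hxi : ∀ i, i ≠ i₁ → (L : ℤ) ≤ x i ∧ x i ≤ 3 * Q * L := by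
    intro i hi
    obtain ⟨h1, h2⟩ := hy' i
    have hMi : M i = L := by rw [hM]; simp only; rw [if_neg hi]
    rw [hMi] at h1 h2
    obtain ⟨h3, h4⟩ := hR0 i
    have hxi : x i = Q * y i + R i := by rw [hx]
    rw [hxi]
    exact box_small hQZ hLZ h1 h2 h3 h4
  have hx1 : (L : ℤ) ^ 2 ≤ x i₁ ∧ x i₁ ≤ 3 * Q * L ^ 2 := by
    obtain ⟨h1, h2⟩ := hy' i₁
    have hMi : M i₁ = (L : ℤ) ^ 2 := by rw [hM]; simp
    rw [hMi] at h1 h2
    obtain ⟨h3, h4⟩ := hR0 i₁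
    have hxi : x i₁ = Q * y i₁ + R i₁ := by rw [hx]
    rw [hxi]
    exact box_large hQZ hLZ h1 h2 h3 h4
  have hQz : (Q : ℤ) * z = W - ∑ i, σ i * P.eval (x i) := by
    rw [hz, mul_sub, ← hc₀, mul_sum, hW]
    have h1 : ∀ i, (Q : ℤ) * (σ i * (q (R i)).eval (y i)) =
        σ i * P.eval (x i) - σ i * P.eval (R i) := by
      intro i
      have h2 := hq2 (R i) (y i)
      have hxi : x i = Q * y i + R i := by rw [hx]
      rw [hxi]
      linear_combination (σ i) * h2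
    rw [sum_congr rfl fun i _ => h1 i, sum_sub_distrib]
    ring
  obtain ⟨hz1, hz2⟩ := sizes P n H hH1 hP1 hP2 d i₁ σ hσabs hσ1 Q W hQZ L hL3 hL4 x
    (fun i hi => ⟨by linarith [(hxi i hi).1], (hxi i hi).2⟩) hx1.1 hx1.2 z hQz
  -- all the sizes
  have hxL : ∀ i, (L : ℤ) ≤ x i ∧ x i ≤ (L : ℤ) ^ (2 * n + 4) := by
    intro i
    have h1 : 3 * (Q : ℤ) * L ^ 2 ≤ (L : ℤ) ^ (2 * n + 4) := by
      calc 3 * (Q : ℤ) * L ^ 2 ≤ L * L ^ 2 := mul_le_mul_of_nonneg_right hL5 (by positivity)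
        _ = (L : ℤ) ^ 3 := by ring
        _ ≤ (L : ℤ) ^ (2 * n + 4) := pow_le_pow_right₀ hLZ (by omega)
    by_cases hi : i = i₁
    · rw [hi]
      exact ⟨le_trans (le_self_pow₀ hLZ (by norm_num)) hx1.1, hx1.2.trans h1⟩
    · obtain ⟨h2, h3⟩ := hxi i hi
      refine ⟨h2, h3.trans (le_trans ?_ h1)⟩
      apply mul_le_mul_of_nonneg_left _ (by positivity)
      exact le_self_pow₀ hLZ (by norm_num)
  have hzL : ∀ j ∈ range (n + 1), (L : ℤ) ≤ z + j ∧ z + (j : ℤ) ≤ (L : ℤ) ^ (2 * n + 4) := by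
    intro j hj
    have hj' : (j : ℤ) ≤ n := by
      have := mem_range.mp hj
      omega
    refine ⟨by omega, ?_⟩
    have h1 : (L : ℤ) ≤ L ^ (2 * n + 3) := le_self_pow₀ hLZ (by omega)
    have h2 : (L : ℤ) ^ (2 * n + 4) = L * L ^ (2 * n + 3) := by ring
    rw [h2]
    have h3 : 2 * (L : ℤ) ^ (2 * n + 3) ≤ L * L ^ (2 * n + 3) :=
      mul_le_mul_of_nonneg_right (by omega) (by positivity)
    omega
  have hreal : ∀ v : ℤ, (L : ℤ) ≤ v → v ≤ (L : ℤ) ^ (2 * n + 4) → Z ^ 2 ≤ (v : ℝ) ∧ (v : ℝ) ≤ Z ^ E := by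
    intro v h1 h2
    have h1' : (L : ℝ) ≤ v := by exact_mod_cast h1
    have h2' : (v : ℝ) ≤ (L : ℝ) ^ (2 * n + 4) := by exact_mod_cast h2
    refine ⟨hZL2.trans h1', h2'.trans ?_⟩
    rw [hE, pow_mul]
    exact pow_le_pow_left₀ (by positivity) hL2 _
  have hcr2 : 2 * κ₁ ≤ c r := by
    rw [hκ₁]
    linarith [hrmin r (mem_univ r)]
  have hffZ : 0 ≤ ff Z := by
    have h1 : 0 ≤ Real.log Z := Real.log_nonneg hZ1
    linarith
  refine ⟨x, z, ?_, ?_, ?_, ?_, ?_⟩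
  · have : (L : ℝ) ≤ z := by exact_mod_cast hz1
    linarith
  · intro i
    have : (L : ℝ) ≤ x i := by exact_mod_cast (hxL i).1
    linarith
  · rw [hD z, hQz, hW, hσ]
    ring
  · intro j hj
    obtain ⟨h1, h2⟩ := hzL j hj
    obtain ⟨h3, h4⟩ := hreal _ h1 h2
    refine g4 (z + j) h3 h4 ?_
    intro l hl hdist
    have hj' : (j : ℝ) ≤ n := by
      have := mem_range.mp hj
      exact_mod_cast (by omega : j ≤ n)
    obtain ⟨p, hp, hp1, hp2⟩ := hgood none l (by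
      rw [fam_eval_none]
      have e1 : ((0 - ∑ i, σ i * (q ((r i : ℕ) : ℤ)).eval (y i) : ℤ) : ℝ) = (z : ℝ) - c₀ := by
        rw [hz, hR]
        push_cast
        ring
      rw [e1]
      have h5 : |((l : ℤ) : ℝ) - ((z : ℝ) - c₀)| ≤ |(l : ℝ) - ((z + j : ℤ) : ℝ)| + (|(c₀ : ℝ)| + n) := by
        have e2 : ((l : ℤ) : ℝ) - ((z : ℝ) - c₀) = ((l : ℝ) - ((z + j : ℤ) : ℝ)) + (c₀ + j) := by
          push_cast
          ring
        rw [e2]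
        refine (abs_add_le _ _).trans ?_
        have h6 : |(c₀ : ℝ) + j| ≤ |(c₀ : ℝ)| + n := by
          refine (abs_add_le _ _).trans ?_
          rw [abs_of_nonneg (show (0 : ℝ) ≤ j from Nat.cast_nonneg j)]
          linarith
        linarith
      have h7 : |(c₀ : ℝ)| + n ≤ κ₁ * ff Z := by
        have h8 : (|(c₀ : ℝ)| + n) / κ₁ ≤ ff Z := g5.trans g6
        rw [div_le_iff₀ hκ₁0] at h8
        linarith
      have h9 : 2 * κ₁ * ff Z ≤ c r * ff Z := mul_le_mul_of_nonneg_right hcr2 hffZ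
      linarith)
    have hpl : p = l := by
      have : p ∣ l := by exact_mod_cast hp2
      exact (Nat.prime_dvd_prime_iff_eq hp hl).1 this
    rw [← hpl]
    exact hp1.trans g7
  · intro i
    obtain ⟨h1, h2⟩ := hxL i
    obtain ⟨h3, h4⟩ := hreal _ h1 h2
    refine g4 (x i) h3 h4 ?_
    intro l hl hdist
    obtain ⟨p, hp, hp1, hp2⟩ := hgood (some i) l (by
      rw [fam_eval_some]
      have e1 : ((Q * y i + ((r i : ℕ) : ℤ) : ℤ) : ℝ) = (x i : ℝ) := by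
        rw [hx, hR]
      rw [e1]
      have h9 : 2 * κ₁ * ff Z ≤ c r * ff Z := mul_le_mul_of_nonneg_right hcr2 hffZ
      have h10 : 0 ≤ κ₁ * ff Z := by positivity
      have e2 : (((l : ℕ) : ℤ) : ℝ) = (l : ℝ) := by push_cast; rfl
      rw [e2]
      linarith)
    have hpl : p = l := by
      have : p ∣ l := by exact_mod_cast hp2
      exact (Nat.prime_dvd_prime_iff_eq hp hl).1 this
    rw [← hpl]
    exact hp1.trans g7

end Pool.Agent.U642.EW
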