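import Mathlib

set_option autoImplicit false

/-! # Differences and representations of integers by signed sums of polynomial values -/

namespace Pool.Agent.U642.EW

open Finset Polynomial

/-- the difference of order `n` of a polynomial of degree `n + 1` is linear -/
theorem lin_diff (P : ℤ[X]) (n : ℕ) (hn : P.natDegree = n + 1) :
    ∃ D : ℤ, ∀ x : ℤ, ∑ j ∈ range (n + 1), ((-1 : ℤ) ^ (n - j) * (n.choose j : ℤ)) * P.eval (x + j) =
      ((n + 1).factorial : ℤ) * P.leadingCoeff * x + D := by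
  have h1 := Polynomial.fwdDiff_iter_degree_eq_factorial P
  rw [hn, Function.iterate_succ_apply'] at h1
  obtain ⟨g, hg⟩ : ∃ g : ℤ → ℤ, g = (fwdDiff (1 : ℤ))^[n] (fun x => P.eval x) := ⟨_, rfl⟩
  have h2 : ∀ x : ℤ, g (x + 1) - g x = ((n + 1).factorial : ℤ) * P.leadingCoeff := by
    intro x
    have h3 := congrFun h1 x
    rw [← hg] at h3
    simp only [fwdDiff] at h3
    rw [h3]
    simp [mul_comm]
  have h4 : ∀ x : ℤ, g x = ((n + 1).factorial : ℤ) * P.leadingCoeff * x + g 0 := by
    intro x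
    induction x using Int.induction_on with
    | zero => simp
    | succ i ih =>
      have := h2 i
      linarith
    | pred i ih =>
      have := h2 (-(i : ℤ) - 1)
      rw [sub_add_cancel] at this
      linarith
  refine ⟨g 0, fun x => ?_⟩
  rw [← h4 x, hg, fwdDiff_iter_eq_sum_shift]
  refine sum_congr rfl fun j _ => ?_
  simp

/-- the signed sum of the first `2 n` values -/
def T (P : ℤ[X]) (n : ℕ) (u : ℕ → ℤ) : ℤ := ∑ i ∈ range (2 * n), (-1 : ℤ) ^ i * P.eval (u i)

lemma T_add (P : ℤ[X]) (n m : ℕ) (u v : ℕ → ℤ) :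
    T P (n + m) (fun i => if i < 2 * n then u i else v (i - 2 * n)) = T P n u + T P m v := by
  unfold T
  rw [mul_add, sum_range_add]
  congr 1
  · refine sum_congr rfl fun i hi => ?_
    have h : i < 2 * n := mem_range.mp hi
    simp only [if_pos h]
  · refine sum_congr rfl fun i _ => ?_
    have h : ¬ (2 * n + i < 2 * n) := by omega
    simp only [if_neg h]
    rw [Nat.add_sub_cancel_left, pow_add, pow_mul]
    simp

/-- all integers are signed sums -/
theorem T_surj (P : ℤ[X]) (hP : ∀ l : ℕ, l.Prime → ∃ x y : ℤ, ¬ (l : ℤ) ∣ P.eval x - P.eval y)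
    (t : ℤ) : ∃ (n : ℕ) (u : ℕ → ℤ), T P n u = t := by
  obtain ⟨S, hS⟩ : ∃ S : Set ℤ, S = {z | ∃ x y : ℤ, z = P.eval x - P.eval y} := ⟨_, rfl⟩
  have hneg : -S = S := by
    rw [hS]
    ext z
    simp only [Set.mem_neg, Set.mem_ofPred_eq]
    constructor
    · rintro ⟨x, y, h⟩
      exact ⟨y, x, by linarith⟩
    · rintro ⟨x, y, h⟩
      exact ⟨y, x, by linarith⟩
  have h1 : t ∈ AddSubgroup.closure S := by
    obtain ⟨d, hd⟩ := Int.subgroup_cyclic (AddSubgroup.closure S)
    have hSd : ∀ z ∈ S, d ∣ z := by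
      intro z hz
      have h2 : z ∈ AddSubgroup.closure S := AddSubgroup.subset_closure hz
      rw [hd, AddSubgroup.mem_closure_singleton] at h2
      obtain ⟨k, hk⟩ := h2
      exact ⟨k, by rw [← hk]; simp [mul_comm]⟩
    have hd1 : d.natAbs = 1 := by
      by_contra hne
      obtain ⟨l, hl, hld⟩ := Nat.exists_prime_and_dvd hne
      obtain ⟨x, y, hxy⟩ := hP l hl
      apply hxy
      refine dvd_trans (Int.natCast_dvd.2 hld) (hSd _ ?_)
      rw [hS]
      exact ⟨x, y, rfl⟩
    rw [hd, AddSubgroup.mem_closure_singleton]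
    rcases Int.natAbs_eq d with h | h
    · rw [hd1] at h
      exact ⟨t, by rw [h]; simp⟩
    · rw [hd1] at h
      exact ⟨-t, by rw [h]; simp⟩
  have h2 : t ∈ AddSubmonoid.closure S := by
    have h3 : t ∈ (AddSubgroup.closure S).toAddSubmonoid := h1
    rw [AddSubgroup.closure_toAddSubmonoid, hneg, Set.union_self] at h3
    exact h3
  induction h2 using AddSubmonoid.closure_induction with
  | mem z hz =>
    rw [hS] at hz
    obtain ⟨x, y, h⟩ := hz
    refine ⟨1, fun i => if i = 0 then x else y, ?_⟩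
    unfold T
    rw [h, mul_one, sum_range_succ, sum_range_succ]
    simp
    ring
  | zero => exact ⟨0, fun _ => 0, by simp [T]⟩
  | add a b _ _ ha hb =>
    have ha' : a ∈ AddSubgroup.closure S := by
      have h3 : a ∈ AddSubmonoid.closure S := by assumption
      rw [show AddSubmonoid.closure S = (AddSubgroup.closure S).toAddSubmonoid by
        rw [AddSubgroup.closure_toAddSubmonoid, hneg, Set.union_self]] at h3
      exact h3
    have hb' : b ∈ AddSubgroup.closure S := by
      have h3 : b ∈ AddSubmonoid.closure S := by assumption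
      rw [show AddSubmonoid.closure S = (AddSubgroup.closure S).toAddSubmonoid by
        rw [AddSubgroup.closure_toAddSubmonoid, hneg, Set.union_self]] at h3
      exact h3
    obtain ⟨n, u, hu⟩ := ha ha'
    obtain ⟨m, v, hv⟩ := hb hb'
    exact ⟨n + m, _, by rw [T_add, hu, hv]⟩

/-- the number of the terms is bounded if we want only the residue class modulo `Q` -/
theorem T_res (P : ℤ[X]) (hP : ∀ l : ℕ, l.Prime → ∃ x y : ℤ, ¬ (l : ℤ) ∣ P.eval x - P.eval y)
    (Q : ℕ) (hQ : 1 ≤ Q) : ∃ n : ℕ, 2 ≤ n ∧ ∀ t : ℤ, ∃ u : ℕ → ℤ, (Q : ℤ) ∣ t - T P n u := by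
  choose N u hu using T_surj P hP
  refine ⟨∑ t ∈ range Q, N t + 2, by omega, fun t => ?_⟩
  obtain ⟨t', ht', ht2⟩ : ∃ t' : ℕ, t' < Q ∧ (Q : ℤ) ∣ t - t' := by
    have hQ0 : (0 : ℤ) < Q := by exact_mod_cast hQ
    refine ⟨(t % Q).toNat, ?_, ?_⟩
    · have h1 := Int.emod_lt_of_pos t hQ0
      have h2 := Int.emod_nonneg t hQ0.ne'
      omega
    · have h2 := Int.emod_nonneg t hQ0.ne'
      rw [Int.toNat_of_nonneg h2]
      exact Int.dvd_self_sub_emod
  have h1 : N t' ≤ ∑ t ∈ range Q, N t :=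
    single_le_sum (f := fun t : ℕ => N t) (fun _ _ => Nat.zero_le _) (mem_range.mpr ht')
  obtain ⟨m, hm⟩ := Nat.exists_eq_add_of_le h1
  refine ⟨fun i => if i < 2 * N t' then u t' i else 0, ?_⟩
  have h2 : ∑ t ∈ range Q, N t + 2 = N t' + (m + 2) := by omega
  rw [h2]
  have h3 := T_add P (N t') (m + 2) (u t') (fun _ => 0)
  rw [h3, hu]
  have h4 : T P (m + 2) (fun _ => 0) = 0 := by
    unfold T
    rw [← sum_mul]
    have : ∑ i ∈ range (2 * (m + 2)), (-1 : ℤ) ^ i = 0 := by
      generalize m + 2 = k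
      induction k with
      | zero => simp
      | succ k ih =>
        rw [show 2 * (k + 1) = 2 * k + 1 + 1 by ring, sum_range_succ, sum_range_succ, ih]
        rw [pow_succ, pow_mul]
        simp
    rw [this, zero_mul]
  rw [h4, add_zero]
  exact ht2

end Pool.Agent.U642.EW
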