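import Pool.Agent.U642.EW.Ident
import Pool.Agent.U642.EW.Bal
import Pool.Agent.U642.WP.Sol

set_option autoImplicit false

/-! # The easier Waring problem with all the variables in record gaps -/

namespace Pool.Agent.U642.EW

open Finset Filter
open Pool.Agent.N647.FG (AP AP_one AP_card)
open Pool.Agent.W147.PS (ff ff_compare ev_pow)
open Pool.Agent.N542.PT (Crit WellDist Good Balanced crit_balanced)
open Pool.Agent.U642.WP (prod_pert)

/-- the record scale is small -/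
lemma ff_up (c : ℝ) : ∀ᶠ x : ℝ in atTop, c * ff x ≤ x := by
  have t1 : Tendsto Real.log atTop atTop := Real.tendsto_log_atTop
  have t2 : Tendsto (fun M : ℝ => Real.log (Real.log M)) atTop atTop := t1.comp t1
  have t3 : Tendsto (fun M : ℝ => Real.log (Real.log (Real.log M))) atTop atTop := t1.comp t2
  have t4 : Tendsto (fun M : ℝ => Real.log (Real.log (Real.log (Real.log M)))) atTop atTop :=
    t1.comp t3
  have h1 : ∀ᶠ x : ℝ in atTop, |c| * Real.log x ^ (4 : ℝ) ≤ x := by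
    have h2 : (fun x : ℝ => Real.log x ^ (4 : ℝ)) =o[atTop] fun x : ℝ => x ^ (1 : ℝ) :=
      isLittleO_log_rpow_rpow_atTop (s := 1) 4 one_pos
    have h3 := (h2.const_mul_left |c|).def (show (0 : ℝ) < 1 by norm_num)
    filter_upwards [h3, eventually_gt_atTop (1 : ℝ)] with x hx hx1
    have h4 : 0 ≤ Real.log x := Real.log_nonneg hx1.le
    rw [Real.norm_of_nonneg (by positivity), Real.norm_of_nonneg (by positivity), one_mul,
      Real.rpow_one] at hx
    exact hx
  filter_upwards [h1, t1.eventually_ge_atTop 1, t2.eventually_ge_atTop 1, t3.eventually_ge_atTop 1,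
    t4.eventually_ge_atTop 1] with x g0 g1 g2 g3 g4
  set L1 := Real.log x
  set L2 := Real.log L1
  set L3 := Real.log L2
  set L4 := Real.log L3
  have a2 : L2 ≤ L1 := (Real.log_le_sub_one_of_pos (by linarith)).trans (by linarith)
  have a3 : L3 ≤ L2 := (Real.log_le_sub_one_of_pos (by linarith)).trans (by linarith)
  have a4 : L4 ≤ L3 := (Real.log_le_sub_one_of_pos (by linarith)).trans (by linarith)
  have h5 : ff x = L1 * L2 ^ 2 * L4 / L3 ^ 2 := rfl
  have h6 : ff x ≤ L1 ^ (4 : ℝ) := by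
    rw [h5, show ((4 : ℝ)) = ((4 : ℕ) : ℝ) by norm_num, Real.rpow_natCast]
    have h7 : 1 ≤ L3 ^ 2 := one_le_pow₀ g3
    calc L1 * L2 ^ 2 * L4 / L3 ^ 2 ≤ L1 * L2 ^ 2 * L4 := div_le_self (by positivity) h7
      _ ≤ L1 * L1 ^ 2 * L1 := by gcongr; linarith
      _ = L1 ^ 4 := by ring
  have h7 : 0 ≤ ff x := by
    rw [h5]
    positivity
  calc c * ff x ≤ |c| * ff x := mul_le_mul_of_nonneg_right (le_abs_self c) h7
    _ ≤ |c| * L1 ^ (4 : ℝ) := mul_le_mul_of_nonneg_left h6 (abs_nonneg c)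
    _ ≤ x := g0

/-- the polynomial `(P (Q y + r) - P r) / Q` -/
lemma shift_div (P : Polynomial ℤ) (n : ℕ) (hn : P.natDegree = n + 1) (Q : ℤ) (hQ : Q ≠ 0) (r : ℤ) :
    ∃ q : Polynomial ℤ, q.natDegree = n + 1 ∧ ∀ y : ℤ, Q * q.eval y = P.eval (Q * y + r) - P.eval r := by
  have h1 := Polynomial.sub_dvd_eval_sub (Polynomial.C Q * Polynomial.X + Polynomial.C r)
    (Polynomial.C r) (P.map Polynomial.C)
  rw [add_sub_cancel_right, Polynomial.eval_map, Polynomial.eval_map, Polynomial.eval₂_at_apply] at h1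
  obtain ⟨R, hR⟩ := h1
  rw [mul_assoc] at hR
  refine ⟨Polynomial.X * R, ?_, ?_⟩
  · have h2 : (P.comp (Polynomial.C Q * Polynomial.X + Polynomial.C r) -
        Polynomial.C (P.eval r)).natDegree = n + 1 := by
      rw [Polynomial.natDegree_sub_C, Polynomial.natDegree_comp, hn,
        Polynomial.natDegree_linear hQ, mul_one]
    have h3 : P.comp (Polynomial.C Q * Polynomial.X + Polynomial.C r) -
        Polynomial.C (P.eval r) = Polynomial.C Q * (Polynomial.X * R) := hR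
    rw [h3, Polynomial.natDegree_C_mul hQ] at h2
    exact h2
  · intro y
    have h3 := congrArg (Polynomial.eval y) hR
    rw [Polynomial.eval_mul, Polynomial.eval_C, Polynomial.eval_sub, Polynomial.eval_C] at h3
    rw [← h3]
    congr 1
    have h4 : Polynomial.eval₂ Polynomial.C (Polynomial.C Q * Polynomial.X + Polynomial.C r) P =
        P.comp (Polynomial.C Q * Polynomial.X + Polynomial.C r) := rfl
    rw [h4, Polynomial.eval_comp]
    simp

open scoped Classical in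
/-- boxes are well distributed -/
lemma box_wd (d : ℕ) (Z : ℝ) (hZ : (2 : ℝ) ^ d ≤ Z) (M : Fin d → ℤ) (L : ℕ)
    (hL : Z ^ (d + 3) ≤ L) :
    WellDist Z (Fintype.piFinset fun j => Ioc (M j) (M j + L)) (fun x => x) := by
  intro q hq hqZ ρ
  have hq0 : (0 : ℝ) < q := by exact_mod_cast hq
  have hqR : (1 : ℝ) ≤ q := by exact_mod_cast hq
  have hZ1 : (1 : ℝ) ≤ Z := (one_le_pow₀ (by norm_num)).trans hZ
  have hZ0 : (0 : ℝ) < Z := by linarith
  have hL0 : (0 : ℝ) < L := lt_of_lt_of_le (by positivity) hL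
  have e1 : (Fintype.piFinset fun j => Ioc (M j) (M j + L)).filter
      (fun i => ∀ j, (q : ℤ) ∣ i j - ρ j) = Fintype.piFinset fun j => AP (M j) L q (ρ j) := by
    ext x
    unfold AP
    simp only [mem_filter, Fintype.mem_piFinset]
    constructor
    · rintro ⟨h1, h2⟩ j
      exact ⟨h1 j, h2 j⟩
    · intro h
      exact ⟨fun j => (h j).1, fun j => (h j).2⟩
  have e2 : ((Fintype.piFinset fun j => Ioc (M j) (M j + L)).card : ℝ) = (L : ℝ) ^ d := by
    rw [Fintype.card_piFinset]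
    have : ∀ j : Fin d, (Ioc (M j) (M j + L)).card = L := fun j => by simp
    rw [prod_congr rfl fun j _ => this j, prod_const, card_univ, Fintype.card_fin]
    push_cast
    rfl
  rw [e1, e2, Fintype.card_piFinset]
  obtain ⟨η, hη⟩ : ∃ η : ℝ, η = (q : ℝ) / L := ⟨_, rfl⟩
  have hη0 : 0 ≤ η := by rw [hη]; positivity
  have hZd : Z ≤ Z ^ (d + 3) := le_self_pow₀ hZ1 (by omega)
  have hη1 : η ≤ 1 := by
    rw [hη, div_le_one hL0]
    linarith
  have h2 := prod_pert univ (fun j => ((AP (M j) L q (ρ j)).card : ℝ))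
      (fun _ => (L : ℝ) / q) η hη0 hη1 (fun j _ => by positivity) (fun j _ => by
        refine (AP_card (M j) L q hq (ρ j)).trans (le_of_eq ?_)
        rw [hη]
        field_simp)
  rw [prod_const, card_univ, Fintype.card_fin, div_pow] at h2
  push_cast
  refine h2.trans ?_
  have h3 : (L : ℝ) ^ d / (q : ℝ) ^ d ≤ (L : ℝ) ^ d :=
    div_le_self (by positivity) (one_le_pow₀ hqR)
  have h4 : (2 ^ d - 1) * η ≤ Z ^ (-((d : ℝ) + 1)) := by
    have h5 : (2 ^ d - 1) * η ≤ Z * (Z / Z ^ (d + 3)) := by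
      apply mul_le_mul _ _ hη0 hZ0.le
      · linarith
      · rw [hη]
        apply div_le_div₀ hZ0.le hqZ (by positivity) hL
    refine h5.trans (le_of_eq ?_)
    have h6 : Z ^ (-((d : ℝ) + 1)) = (Z ^ (d + 1))⁻¹ := by
      rw [Real.rpow_neg hZ0.le]
      congr 1
      rw [← Real.rpow_natCast]
      push_cast
      rfl
    rw [h6]
    field_simp
    ring
  calc (2 ^ d - 1) * η * ((L : ℝ) ^ d / (q : ℝ) ^ d) ≤ Z ^ (-((d : ℝ) + 1)) * (L : ℝ) ^ d := by
        apply mul_le_mul h4 h3 (by positivity) (by positivity)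
    _ = _ := mul_comm _ _

/-- bounds for the values of a polynomial -/
lemma poly_bounds (P : Polynomial ℤ) (n : ℕ) (hn : P.natDegree = n + 1) (ha : 0 < P.leadingCoeff) :
    ∃ H : ℤ, 1 ≤ H ∧ (∀ x : ℤ, 1 ≤ x → |P.eval x| ≤ H * x ^ (n + 1)) ∧
      ∀ x : ℤ, 2 * H ≤ x → x ^ (n + 1) ≤ 2 * P.eval x := by
  obtain ⟨H, hH⟩ : ∃ H : ℤ, H = ∑ i ∈ range (n + 2), |P.coeff i| := ⟨_, rfl⟩
  have hlc : P.coeff (n + 1) = P.leadingCoeff := by
    rw [Polynomial.leadingCoeff, hn]
  have hH1 : 1 ≤ H := by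
    have h1 : |P.coeff (n + 1)| ≤ H := by
      rw [hH]
      exact single_le_sum (f := fun i => |P.coeff i|) (fun _ _ => abs_nonneg _)
        (mem_range.mpr (by omega))
    rw [hlc, abs_of_pos ha] at h1
    omega
  have hev : ∀ x : ℤ, P.eval x = ∑ i ∈ range (n + 2), P.coeff i * x ^ i := by
    intro x
    rw [Polynomial.eval_eq_sum_range, hn]
  refine ⟨H, hH1, ?_, ?_⟩
  · intro x hx
    rw [hev x]
    refine (abs_sum_le_sum_abs _ _).trans ?_
    rw [hH, sum_mul]
    refine sum_le_sum fun i hi => ?_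
    rw [abs_mul, abs_of_nonneg (show (0 : ℤ) ≤ x ^ i by positivity)]
    apply mul_le_mul_of_nonneg_left _ (abs_nonneg _)
    exact pow_le_pow_right₀ hx (by have := mem_range.mp hi; omega)
  · intro x hx
    have hx1 : 1 ≤ x := by omega
    rw [hev x, sum_range_succ, hlc]
    have h1 : |∑ i ∈ range (n + 1), P.coeff i * x ^ i| ≤ H * x ^ n := by
      refine (abs_sum_le_sum_abs _ _).trans ?_
      have h2 : ∑ i ∈ range (n + 1), |P.coeff i * x ^ i| ≤ ∑ i ∈ range (n + 1), |P.coeff i| * x ^ n := by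
        refine sum_le_sum fun i hi => ?_
        rw [abs_mul, abs_of_nonneg (show (0 : ℤ) ≤ x ^ i by positivity)]
        apply mul_le_mul_of_nonneg_left _ (abs_nonneg _)
        exact pow_le_pow_right₀ hx1 (by have := mem_range.mp hi; omega)
      refine h2.trans ?_
      rw [← sum_mul]
      apply mul_le_mul_of_nonneg_right _ (by positivity)
      rw [hH, sum_range_succ _ (n + 1)]
      have := abs_nonneg (P.coeff (n + 1))
      omega
    have h3 := (abs_le.mp h1).1
    have h4 : 2 * H * x ^ n ≤ x ^ (n + 1) := by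
      rw [pow_succ, mul_comm (x ^ n)]
      exact mul_le_mul_of_nonneg_right hx (by positivity)
    have h5 : x ^ (n + 1) ≤ P.leadingCoeff * x ^ (n + 1) := by
      have h6 : (0 : ℤ) ≤ x ^ (n + 1) := by positivity
      nlinarith
    linarith

/-- the sizes of the variables -/
lemma sizes (P : Polynomial ℤ) (n : ℕ) (H : ℤ) (hH : 1 ≤ H)
    (hP1 : ∀ x : ℤ, 1 ≤ x → |P.eval x| ≤ H * x ^ (n + 1))
    (hP2 : ∀ x : ℤ, 2 * H ≤ x → x ^ (n + 1) ≤ 2 * P.eval x) (d : ℕ) (i₁ : Fin d) (σ : Fin d → ℤ)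
    (hσ : ∀ i, |σ i| = 1) (hσ1 : σ i₁ = -1) (Q W : ℤ) (hQ : 1 ≤ Q) (L : ℤ) (hL1 : 2 * H ≤ L)
    (hL2 : 2 * d * H * (3 * Q) ^ (n + 1) + 2 * |W| + 2 * Q ≤ L) (x : Fin d → ℤ)
    (hx : ∀ i, i ≠ i₁ → 1 ≤ x i ∧ x i ≤ 3 * Q * L) (hx1 : L ^ 2 ≤ x i₁) (hx2 : x i₁ ≤ 3 * Q * L ^ 2)
    (z : ℤ) (hz : Q * z = W - ∑ i, σ i * P.eval (x i)) : L ≤ z ∧ z ≤ L ^ (2 * n + 3) := by
  have hL : 1 ≤ L := by omega
  obtain ⟨A, hA⟩ : ∃ A : ℤ, A = L ^ (n + 1) := ⟨_, rfl⟩
  have hAL : L ≤ A := by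
    rw [hA]
    exact le_self_pow₀ hL (by omega)
  have hA1 : 1 ≤ A := by omega
  obtain ⟨K, hK⟩ : ∃ K : ℤ, K = d * H * (3 * Q) ^ (n + 1) := ⟨_, rfl⟩
  have hK0 : 0 ≤ K := by rw [hK]; positivity
  have hL2' : 2 * K + 2 * |W| + 2 * Q ≤ L := by
    rw [hK]
    linarith
  have hW0 : 0 ≤ |W| := abs_nonneg W
  have hx1' : 1 ≤ x i₁ := by nlinarith
  have habs : ∀ i, |σ i * P.eval (x i)| = |P.eval (x i)| := by
    intro i
    rw [abs_mul, hσ i, one_mul]
  -- the rest
  have hrest : |∑ i ∈ univ.erase i₁, σ i * P.eval (x i)| ≤ K * A := by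
    refine (abs_sum_le_sum_abs _ _).trans ?_
    have h1 : ∀ i ∈ univ.erase i₁, |σ i * P.eval (x i)| ≤ H * ((3 * Q) ^ (n + 1) * A) := by
      intro i hi
      obtain ⟨h2, h3⟩ := hx i (ne_of_mem_erase hi)
      rw [habs]
      refine (hP1 _ h2).trans ?_
      apply mul_le_mul_of_nonneg_left _ (by omega)
      rw [hA, ← mul_pow]
      exact pow_le_pow_left₀ (by omega) h3 _
    refine (sum_le_sum h1).trans ?_
    rw [sum_const, nsmul_eq_mul, hK]
    have h2 : (((univ : Finset (Fin d)).erase i₁).card : ℤ) ≤ d := by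
      have := card_le_card (erase_subset i₁ (univ : Finset (Fin d)))
      rw [card_univ, Fintype.card_fin] at this
      exact_mod_cast this
    have h3 : 0 ≤ H * ((3 * Q) ^ (n + 1) * A) := by positivity
    calc (((univ : Finset (Fin d)).erase i₁).card : ℤ) * (H * ((3 * Q) ^ (n + 1) * A)) ≤
          d * (H * ((3 * Q) ^ (n + 1) * A)) := mul_le_mul_of_nonneg_right h2 h3
      _ = _ := by ring
  have hsplit : ∑ i, σ i * P.eval (x i) = -P.eval (x i₁) + ∑ i ∈ univ.erase i₁, σ i * P.eval (x i) := by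
    rw [← add_sum_erase univ _ (mem_univ i₁), hσ1]
    ring
  have hmain : A * A ≤ 2 * P.eval (x i₁) := by
    refine le_trans ?_ (hP2 (x i₁) (by nlinarith))
    rw [hA, ← mul_pow, ← sq]
    exact pow_le_pow_left₀ (by positivity) hx1 _
  have hup : |P.eval (x i₁)| ≤ H * ((3 * Q) ^ (n + 1) * (A * A)) := by
    refine (hP1 _ hx1').trans ?_
    apply mul_le_mul_of_nonneg_left _ (by omega)
    have : (3 * Q) ^ (n + 1) * (A * A) = (3 * Q * L ^ 2) ^ (n + 1) := by
      rw [hA, mul_pow (3 * Q) (L ^ 2), ← pow_mul, ← pow_add]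
      congr 2
      ring
    rw [this]
    exact pow_le_pow_left₀ (by omega) hx2 _
  have h1 := abs_le.mp hrest
  have hWle := neg_abs_le W
  have hWle' := le_abs_self W
  have hz1 : A ≤ z := by
    have h2 : 2 * Q * A ≤ 2 * (Q * z) := by
      rw [hz, hsplit]
      nlinarith
    have h3 : 2 * Q * A ≤ 2 * Q * z := by linarith
    exact le_of_mul_le_mul_left h3 (by omega)
  refine ⟨hAL.trans hz1, ?_⟩
  have hdpos : (1 : ℤ) ≤ d := by
    have : 0 < d := Fin.pos i₁
    exact_mod_cast this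
  have h4 : H * (3 * Q) ^ (n + 1) ≤ K := by
    rw [hK]
    have h5 : 0 ≤ H * (3 * Q) ^ (n + 1) := by positivity
    nlinarith
  have h6 : H * ((3 * Q) ^ (n + 1) * (A * A)) ≤ K * (A * A) := by
    have : H * ((3 * Q) ^ (n + 1) * (A * A)) = H * (3 * Q) ^ (n + 1) * (A * A) := by ring
    rw [this]
    exact mul_le_mul_of_nonneg_right h4 (by positivity)
  have h7 : Q * z ≤ L * (A * A) := by
    rw [hz, hsplit]
    have h8 := (abs_le.mp hup).2
    have h9 : K * A ≤ K * (A * A) := by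
      apply mul_le_mul_of_nonneg_left _ hK0
      nlinarith
    have hAA : 1 ≤ A * A := by nlinarith
    have h10 : |W| ≤ |W| * (A * A) := le_mul_of_one_le_right hW0 hAA
    have h11 : (2 * K + 2 * |W| + 2 * Q) * (A * A) ≤ L * (A * A) :=
      mul_le_mul_of_nonneg_right hL2' (by positivity)
    have h12 : 0 ≤ |W| * (A * A) := by positivity
    have h13 : 0 ≤ Q * (A * A) := by positivity
    nlinarith
  have h14 : z ≤ Q * z := by nlinarith
  calc z ≤ Q * z := h14
    _ ≤ L * (A * A) := h7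
    _ = L ^ (2 * n + 3) := by
        rw [hA]
        ring

end Pool.Agent.U642.EW
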